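import Pool.Agent.R313.FM.Main

set_option autoImplicit false

/-!
# MP_91b7ff_nt, exponent `k = 1`: explicit bounds from above and from below in short intervals

Unconditionally, for every real `α`, all large `T` and every interval `[U, U + H]` inside `[0, T]` with
`H ≥ T / (log T)^α`, the integral of `|ζ(1/2 + it)|` over `[U, U + H]` lies between `0.59` and `2.14` times
`A / Γ(5/4) * H (log T)^(1/4)`, where `A` is the arithmetic factor of the Keating-Snaith conjecture.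
-/

namespace Pool.Agent.Results.MP_91b7ff_nt.FirstMoment

open Filter MeasureTheory

/-- the arithmetic factor of the conjectured constant `c_1`,
`A = ∏_p (1 - 1/p)^(1/4) ∑_m d(m)² p^(-m)` with `d(m) = ∏_{i < m} (1/2 + i) / (i + 1)` -/
noncomputable def A : ℝ :=
  ∏' p : Nat.Primes, ((1 - 1 / (p : ℝ)) ^ ((1 : ℝ) / 4) *
    ∑' m : ℕ, (∏ i ∈ Finset.range m, ((1 : ℝ) / 2 + i) / ((i : ℝ) + 1)) ^ 2 * (1 / (p : ℝ)) ^ m)

theorem A_eq : A = Pool.Agent.H306R2.aF Pool.Agent.R313.FM.kh := by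
  unfold A Pool.Agent.H306R2.aF Pool.Agent.H306R2.lc Pool.Agent.R313.FM.kh
  norm_num

theorem result (α : ℝ) :
    ∀ᶠ T : ℝ in atTop, ∀ U H : ℝ, 0 ≤ U → U + H ≤ T → T / Real.log T ^ α ≤ H →
      59 / 100 * (A / Real.Gamma (5 / 4)) * (H * Real.log T ^ ((1 : ℝ) / 4)) ≤
        ∫ t in U..(U + H), ‖riemannZeta (1 / 2 + t * Complex.I)‖ ∧
      ∫ t in U..(U + H), ‖riemannZeta (1 / 2 + t * Complex.I)‖ ≤
        107 / 50 * (A / Real.Gamma (5 / 4)) * (H * Real.log T ^ ((1 : ℝ) / 4)) := by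
  have e1 : Pool.Agent.R313.FM.kh ^ 2 = 1 / 4 := by
    unfold Pool.Agent.R313.FM.kh; norm_num
  have e2 : Pool.Agent.R313.FM.A0 = A / Real.Gamma (5 / 4) := by
    unfold Pool.Agent.R313.FM.A0
    rw [A_eq, e1]
    norm_num
  filter_upwards [Pool.Agent.R313.FM.first_upper (α := α), Pool.Agent.R313.FM.first_lower (α := α),
    Pool.Agent.R313.FM.big_log] with T h1 h2 h3 U H hU hUH hH
  have hL : 0 < Real.log T := by linarith [h3.2]
  have hT : 0 < T := by linarith [h3.1]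
  have hLα : 0 < Real.log T ^ α := by positivity
  have hH0 : 0 < H := lt_of_lt_of_le (by positivity) hH
  have hA : Pool.Agent.R313.FM.Adm α T U H := ⟨hU, hH0, hUH, by rwa [div_le_iff₀ hLα] at hH⟩
  have k1 := h1 U H hA
  have k2 := h2 U H hA
  have e3 : Pool.Agent.R313.FM.ZZ 0 T U H =
      ∫ t in U..(U + H), ‖riemannZeta (1 / 2 + t * Complex.I)‖ := by
    unfold Pool.Agent.R313.FM.ZZ Pool.Agent.W184.zn
    simp
  rw [e3, e2] at k1 k2
  unfold Pool.Agent.R313.FM.mm at k1 k2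
  rw [e1] at k1 k2
  exact ⟨k2, k1⟩

end Pool.Agent.Results.MP_91b7ff_nt.FirstMoment
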