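import Pool.Agent.R313.OddWin

set_option autoImplicit false

/-!
# MP_91b7ff_nt, exponents `k = 3, 5, 7`: explicit lower bounds of the conjectured order in all intervals

Unconditionally, for every `α < 1/2`, all large `T` and every interval `[U, U + H]` inside `[0, T]` with
`H ≥ T / (log T)^α`, the integral of `|ζ(1/2 + it)|^k` over `[U, U + H]` is at least
`C_k A_k / Γ(k²/4 + 1) * H (log T)^(k²/4)` with `C_3 = 7/8`, `C_5 = 337/100`, `C_7 = 32`, where `A_k` is the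
arithmetic factor of the Keating-Snaith conjecture.
-/

namespace Pool.Agent.Results.MP_91b7ff_nt.IntervalsThreeFiveSeven

open Filter MeasureTheory

/-- the arithmetic factor of the conjectured constant `c_k`,
`A_k = ∏_p (1 - 1/p)^(k²/4) ∑_m d(m)² p^(-m)` with `d(m) = ∏_{i < m} (k/2 + i) / (i + 1)` -/
noncomputable def A (k : ℕ) : ℝ :=
  ∏' p : Nat.Primes, ((1 - 1 / (p : ℝ)) ^ ((k : ℝ) ^ 2 / 4) *
    ∑' m : ℕ, (∏ i ∈ Finset.range m, ((k : ℝ) / 2 + i) / ((i : ℝ) + 1)) ^ 2 * (1 / (p : ℝ)) ^ m)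

theorem A_eq (k : ℕ) : A k = Pool.Agent.H306R2.aF ((k : ℝ) / 2) := by
  unfold A Pool.Agent.H306R2.aF Pool.Agent.H306R2.lc
  rw [show ((k : ℝ) / 2) ^ 2 = (k : ℝ) ^ 2 / 4 by ring]

theorem result (α : ℝ) (h0 : 0 ≤ α) (h1 : α < 1 / 2) (k : ℕ) (C : ℝ)
    (hk : k = 3 ∧ C = 7 / 8 ∨ k = 5 ∧ C = 337 / 100 ∨ k = 7 ∧ C = 32) :
    ∀ᶠ T : ℝ in atTop, ∀ U H : ℝ, 0 ≤ U → U + H ≤ T → T / Real.log T ^ α ≤ H →
      C * A k / Real.Gamma ((k : ℝ) ^ 2 / 4 + 1) * (H * Real.log T ^ ((k : ℝ) ^ 2 / 4)) ≤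
        ∫ t in U..(U + H), ‖riemannZeta (1 / 2 + t * Complex.I)‖ ^ k := by
  rcases hk with ⟨rfl, rfl⟩ | ⟨rfl, rfl⟩ | ⟨rfl, rfl⟩
  · have e1 : (((3 : ℕ) : ℝ) / 2) = 3 / 2 := by norm_num
    have e2 : (((3 : ℕ) : ℝ) ^ 2 / 4) = 9 / 4 := by norm_num
    have e3 : (9 / 4 + 1 : ℝ) = 13 / 4 := by norm_num
    rw [A_eq, e1, e2, e3]
    filter_upwards [Pool.Agent.R313.third_all α h0 h1] with T hT U H hU hUH hH
    refine le_trans (le_of_eq ?_) (hT U H hU hUH hH)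
    ring
  · have e1 : (((5 : ℕ) : ℝ) / 2) = 5 / 2 := by norm_num
    have e2 : (((5 : ℕ) : ℝ) ^ 2 / 4) = 25 / 4 := by norm_num
    have e3 : (25 / 4 + 1 : ℝ) = 29 / 4 := by norm_num
    rw [A_eq, e1, e2, e3]
    filter_upwards [Pool.Agent.R313.fifth_all α h0 h1] with T hT U H hU hUH hH
    refine le_trans (le_of_eq ?_) (hT U H hU hUH hH)
    ring
  · have e1 : (((7 : ℕ) : ℝ) / 2) = 7 / 2 := by norm_num
    have e2 : (((7 : ℕ) : ℝ) ^ 2 / 4) = 49 / 4 := by norm_num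
    have e3 : (49 / 4 + 1 : ℝ) = 53 / 4 := by norm_num
    rw [A_eq, e1, e2, e3]
    filter_upwards [Pool.Agent.R313.seventh_all α h0 h1] with T hT U H hU hUH hH
    refine le_trans (le_of_eq ?_) (hT U H hU hUH hH)
    ring

end Pool.Agent.Results.MP_91b7ff_nt.IntervalsThreeFiveSeven
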