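import Pool.Agent.R313.FN.F

set_option autoImplicit false

/-!
# MP_91b7ff_nt: the local landscape of zeta under the moment measures of order at most four, near the critical line

Let `δ(T) → 0`, `δ(T) log T → ∞`, `0 < β ≤ 4` and let `p, q` be real. For `x ∈ [0, 1]` put `u = p + q x` and
`Z_t(x) = |ζ(1/2 + δ + i(t + u δ))|`. There is a random continuous function on `[0, 1]`, with law `ν`, whose
finite-dimensional distributions are those of `exp Y(u)`, where `Y` is the Gaussian process with mean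
`-(β/4) log (1 + u²/4)` and covariance `(log (1 + u²/4) + log (1 + v²/4) - log (1 + (u-v)²/4)) / 4`, such that
`(2δ)^(β²/4) (1/T) ∫_0^T |ζ(1/2 + δ + it)|^β F(Z_t / |ζ(1/2 + δ + it)|) dt` converges to `a(β/2) ∫ F dν` for every
continuous function `F` on the space of continuous functions with `|F(f)| ≤ A (1 + (max |f|)^β)`. In particular
`(2δ)^(β²/4) (1/T) ∫_0^T max_x |ζ(1/2 + δ + i(t + u δ))|^β dt` converges to `a(β/2) ∫ (max |f|)^β dν(f)`.
-/

open Filter Topology MeasureTheory ProbabilityTheory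

namespace Pool.Agent.Results.MP_91b7ff_nt.LocalLandscape

/-- the arithmetic factor of the moment conjecture for `|ζ|^(2κ)` -/
noncomputable def ak (κ : ℝ) : ℝ :=
  ∏' p : Nat.Primes, ((1 - 1 / (p : ℝ)) ^ (κ ^ 2) *
    ∑' m : ℕ, (Real.Gamma (κ + m) / (Real.Gamma κ * (m.factorial : ℝ))) ^ 2 / (p : ℝ) ^ m)

/-- the mean of the Gaussian process -/
noncomputable def mean (β u : ℝ) : ℝ := -(β / 4) * Real.log (1 + (u / 2) ^ 2)

/-- the covariance of the Gaussian process -/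
noncomputable def cov (u v : ℝ) : ℝ :=
  (Real.log (1 + (u / 2) ^ 2) + Real.log (1 + (v / 2) ^ 2) - Real.log (1 + ((u - v) / 2) ^ 2)) / 4

/-- The finite-dimensional distributions of `ν` are those of `exp Y(p + q x)`: for all points `x_1, ..., x_n` there is
a normal law `ρ` on `ℝ^n` with means `mean` and covariances `cov` such that the law of `(f(x_1), ..., f(x_n))` under
`ν` is the image of `ρ` under the exponential function in every coordinate. -/
def ExpGaussian (β p q : ℝ) (ν : Measure C(unitInterval, ℝ)) : Prop :=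
  ∀ (n : ℕ) (x : Fin n → unitInterval), ∃ ρ : Measure (Fin n → ℝ), IsProbabilityMeasure ρ ∧
    (∀ c : Fin n → ℝ, 0 ≤ ∑ i, ∑ j, c i * c j * cov (p + q * x i) (p + q * x j) ∧
      ρ.map (fun y => ∑ j, c j * y j) = gaussianReal (∑ j, c j * mean β (p + q * x j))
        (∑ i, ∑ j, c i * c j * cov (p + q * x i) (p + q * x j)).toNNReal) ∧
    ν.map (fun f j => f (x j)) = ρ.map (fun y j => Real.exp (y j))

theorem result (δ : ℝ → ℝ) (hδ : Tendsto δ atTop (𝓝 0)) (hδL : Tendsto (fun T : ℝ => δ T * Real.log T) atTop atTop)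
    (β : ℝ) (hβ : 0 < β) (hβ4 : β ≤ 4) (p q : ℝ) :
    0 < ak (β / 2) ∧ ∃ (ν : Measure C(unitInterval, ℝ)) (Z : ℝ → ℝ → C(unitInterval, ℝ)), IsProbabilityMeasure ν ∧
      ExpGaussian β p q ν ∧ Integrable (fun f : C(unitInterval, ℝ) => ‖f‖ ^ β) ν ∧
      (∀ᶠ T in atTop, ∀ (t : ℝ) (x : unitInterval),
        Z T t x = ‖riemannZeta (1 / 2 + δ T + Complex.I * ((t + (p + q * x) * δ T : ℝ) : ℂ))‖) ∧
      (∀ (F : C(unitInterval, ℝ) → ℝ) (A : ℝ), Continuous F → (∀ f, |F f| ≤ A * (1 + ‖f‖ ^ β)) →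
        Tendsto (fun T : ℝ => (2 * δ T) ^ (β ^ 2 / 4) * (1 / T * ∫ t in (0:ℝ)..T,
          ‖riemannZeta (1 / 2 + δ T + Complex.I * (t : ℂ))‖ ^ β *
            F ((‖riemannZeta (1 / 2 + δ T + Complex.I * (t : ℂ))‖)⁻¹ • Z T t))) atTop
          (𝓝 (ak (β / 2) * ∫ f, F f ∂ν))) ∧
      Tendsto (fun T : ℝ => (2 * δ T) ^ (β ^ 2 / 4) * (1 / T * ∫ t in (0:ℝ)..T,
        (⨆ x : unitInterval, ‖riemannZeta (1 / 2 + δ T + Complex.I * ((t + (p + q * x) * δ T : ℝ) : ℂ))‖) ^ β)) atTop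
          (𝓝 (ak (β / 2) * ∫ f, ‖f‖ ^ β ∂ν)) := by
  have e1 : ∀ k : ℝ, 0 < k → ∀ m : ℕ, Real.Gamma (k + m) / (Real.Gamma k * (m.factorial : ℝ)) = Pool.Agent.H306R2.lc k m := by
    intro k hk m
    have hG : Real.Gamma k ≠ 0 := (Real.Gamma_pos_of_pos hk).ne'
    induction m with
    | zero =>
      unfold Pool.Agent.H306R2.lc
      simp [hG]
    | succ m ih =>
      have h1 : Pool.Agent.H306R2.lc k (m + 1) = Pool.Agent.H306R2.lc k m * ((k + m) / ((m : ℝ) + 1)) := by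
        unfold Pool.Agent.H306R2.lc
        rw [Finset.prod_range_succ]
      have hkm : k + (m : ℝ) ≠ 0 := by positivity
      have h2 : Real.Gamma (k + ((m + 1 : ℕ) : ℝ)) = (k + m) * Real.Gamma (k + m) := by
        rw [← Real.Gamma_add_one hkm]
        congr 1
        push_cast
        ring
      have hf : (m.factorial : ℝ) ≠ 0 := by positivity
      rw [h1, ← ih, h2, Nat.factorial_succ]
      push_cast
      field_simp
  have e3 : ∀ k : ℝ, 0 < k → ak k = Pool.Agent.H306R2.aF k := by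
    intro k hk
    unfold ak Pool.Agent.H306R2.aF
    refine tprod_congr fun p => ?_
    simp_rw [e1 k hk, one_div, inv_pow, div_eq_mul_inv]
  have hβ2 : 0 < β / 2 := by positivity
  rw [e3 _ hβ2]
  refine ⟨Pool.Agent.H306R2.aF_pos hβ2, ?_⟩
  obtain ⟨ν, h1, h2, h3, h4⟩ := Pool.Agent.R313.FN.path_main hδ hδL hβ hβ4 p q
  have e4 : ∀ (T t x : ℝ), (1 / 2 + δ T + ((t + x * δ T : ℝ) : ℂ) * Complex.I : ℂ) =
    1 / 2 + δ T + Complex.I * ((t + x * δ T : ℝ) : ℂ) := fun T t x => by ring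
  have e5 : ∀ T t : ℝ, Pool.Agent.Y753.SHR.za (δ T) 0 t = ‖riemannZeta (1 / 2 + δ T + Complex.I * (t : ℂ))‖ := by
    intro T t
    unfold Pool.Agent.Y753.SHR.za
    congr 2
    push_cast
    ring
  have e6 : ∀ T : ℝ, (2 * δ T) ^ ((β / 2) ^ 2) = (2 * δ T) ^ (β ^ 2 / 4) := fun T => by congr 1; ring
  have hlt : ∀ᶠ T in atTop, δ T < 1 / 2 := hδ.eventually (gt_mem_nhds (by norm_num))
  have hZ : ∀ᶠ T in atTop, ∀ (t : ℝ) (x : unitInterval), Pool.Agent.R313.FN.zp (δ T) p q t x =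
      ‖riemannZeta (1 / 2 + δ T + Complex.I * ((t + (p + q * x) * δ T : ℝ) : ℂ))‖ := by
    filter_upwards [hlt] with T hT t x
    rw [Pool.Agent.R313.FN.zp_apply p q hT]
    unfold Pool.Agent.Y753.SHR.za
    rw [e4]
  refine ⟨(ν : Measure C(unitInterval, ℝ)), fun T t => Pool.Agent.R313.FN.zp (δ T) p q t, inferInstance, ?_, h2, hZ, ?_, ?_⟩
  · intro n x
    obtain ⟨ρ, hρ, hν⟩ := h1 n x
    exact ⟨(ρ : Measure (Fin n → ℝ)), inferInstance, fun c => hρ c, hν⟩
  · intro F A hF hFA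
    refine (h3 F A hF hFA).congr' ?_
    filter_upwards [eventually_gt_atTop 0] with T hT
    rw [e6, intervalIntegral.integral_of_le hT.le, ← integral_Icc_eq_integral_Ioc]
    simp_rw [e5]
    ring
  · refine h4.congr' ?_
    filter_upwards [eventually_gt_atTop 0, hZ] with T hT hz
    rw [e6, intervalIntegral.integral_of_le hT.le, ← integral_Icc_eq_integral_Ioc]
    have e7 : ∀ t : ℝ, ‖Pool.Agent.R313.FN.zp (δ T) p q t‖ =
        ⨆ x : unitInterval, ‖riemannZeta (1 / 2 + δ T + Complex.I * ((t + (p + q * x) * δ T : ℝ) : ℂ))‖ := by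
      intro t
      rw [ContinuousMap.norm_eq_iSup_norm]
      congr 1
      funext x
      rw [hz, norm_norm]
    simp_rw [e7]
    ring

end Pool.Agent.Results.MP_91b7ff_nt.LocalLandscape
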