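import Pool.Agent.R311.AP.W

set_option autoImplicit false

/-!
Lower bounds of the conjectured order for the integer moments of the zeta function on the critical
line, sampled along every vertical arithmetic progression `α k + β`, uniformly in the shift `β`,
and restricted to every measurable set of period `α`, in all ranges `[T, T + H]`,
`T ^ (1/2 + ε) ≤ H ≤ T`.
-/

namespace Pool.Agent.Results.MP_91b7ff_nt.ProgressionMoments

open MeasureTheory Filter

theorem result (q : ℕ) (hq : 2 ≤ q) (α : ℝ) (hα : 0 < α) (ε : ℝ) (hε : 0 < ε) :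
    ∃ c : ℝ, 0 < c ∧ ∀ᶠ T : ℝ in atTop, ∀ H : ℝ, T ^ (1 / 2 + ε) ≤ H → H ≤ T →
      (∀ β : ℝ, c * H * Real.log T ^ ((q:ℝ) ^ 2 / 4) ≤
        ∑ k ∈ Finset.Icc ⌈(T - β) / α⌉ ⌊(T + H - β) / α⌋,
          ‖riemannZeta (1 / 2 + ((α * k + β : ℝ) : ℂ) * Complex.I)‖ ^ q) ∧
      ∀ E : Set ℝ, MeasurableSet E → (∀ t ∈ E, ∀ k : ℤ, α * k + t ∈ E) →
        (volume (E ∩ Set.Ico 0 α)).toReal * (c * H * Real.log T ^ ((q:ℝ) ^ 2 / 4)) ≤
          ∫ t in E ∩ Set.Icc T (T + H), ‖riemannZeta (1 / 2 + (t : ℂ) * Complex.I)‖ ^ q :=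
  Pool.Agent.R311.AP.main q hq α hα ε hε

end Pool.Agent.Results.MP_91b7ff_nt.ProgressionMoments
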